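import Pool.Agent.Helper55.PHU.FrameCore
import Pool.Agent.Helper79.PHU.Pos
import Pool.Agent.Helper46.PHU.Uniq

/-!
# MP_8bf717_co, module PHU-16: the frame, from the existence of a critical direction
-/

set_option autoImplicit false

open MeasureTheory Set

namespace Pool.Agent.Helper55.PHU

open Pool.Agent.Helper27.PHU Pool.Agent.Helper37.PH Pool.Agent.Helper61.PH

/-- The frame of a strictly convex body, from a critical direction. -/
theorem exists_frame_of_crit {K : Set (ℝ × ℝ)} (hK : SBody K)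
    (hcrit : ∃ (θ : ℝ) (z z' : Fin 10 → ℝ × ℝ), Good K θ z ∧ Good K θ z' ∧ Del θ z ≤ 0 ∧
      0 ≤ Del θ z') :
    ∃ (L : (ℝ × ℝ) ≃ₗ[ℝ] (ℝ × ℝ)) (c : ℝ × ℝ) (b c1 c2 r1 r2 l1 l2 : ℝ),
      Frame (affE L c '' K) b c1 c2 r1 r2 l1 l2 := by
  obtain ⟨θ, z, z', h, h', hd, hd'⟩ := hcrit
  exact frame_of_good hK h h' (Pool.Agent.Helper46.PHU.good_unique hK h h')
    (Pool.Agent.Helper79.PHU.good_pos hK h) (Pool.Agent.Helper79.PHU.good_pos hK h') hd hd'

end Pool.Agent.Helper55.PHU
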