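import Pool.Agent.Helper27.PHU.Defs

/-!
# MP_8bf717_co, module PHU-16: the frame of a critical direction
-/

set_option autoImplicit false

open MeasureTheory Set

namespace Pool.Agent.Helper55.PHU

open Pool.Agent.Helper27.PHU Pool.Agent.Helper37.PH Pool.Agent.Helper61.PH

/-- A point strictly between two points of a vertical line of a strictly convex body is an
interior point; so the body has points on both sides. -/
theorem sbody_between {K : Set (ℝ × ℝ)} (hK : SBody K) {x y y1 y2 : ℝ} (h1 : (x, y1) ∈ K)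
    (h2 : (x, y2) ∈ K) (hy1 : y1 < y) (hy2 : y < y2) :
    ∃ ε : ℝ, 0 < ε ∧ (x + ε, y) ∈ K ∧ (x - ε, y) ∈ K := by
  have hseg : ∀ s : ℝ, y1 ≤ s → s ≤ y2 → (x, s) ∈ K := by
    intro s hs1 hs2
    have hpos : 0 < y2 - y1 := by linarith
    have h3 := hK.body.convex h1 h2 (a := (y2 - s) / (y2 - y1)) (b := (s - y1) / (y2 - y1))
      (div_nonneg (by linarith) hpos.le) (div_nonneg (by linarith) hpos.le)
      (by field_simp; ring)
    have h4 : ((y2 - s) / (y2 - y1)) • ((x, y1) : ℝ × ℝ) + ((s - y1) / (y2 - y1)) • ((x, y2) : ℝ × ℝ)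
        = (x, s) := by
      ext
      · simp only [Prod.fst_add, Prod.smul_fst, smul_eq_mul]
        field_simp
        ring
      · simp only [Prod.snd_add, Prod.smul_snd, smul_eq_mul]
        field_simp
        ring
    rwa [h4] at h3
  set s : ℝ := min (y - y1) (y2 - y) with hs
  have hs0 : 0 < s := lt_min (by linarith) (by linarith)
  have hs1 : s ≤ y - y1 := min_le_left _ _
  have hs2 : s ≤ y2 - y := min_le_right _ _
  have h5 := hK.strict (x, y - s) (hseg _ (by linarith) (by linarith)) (x, y + s)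
    (hseg _ (by linarith) (by linarith)) (by
      intro h
      have h6 : y - s = y + s := congrArg Prod.snd h
      linarith)
  have h6 : (1 / 2 : ℝ) • (((x, y - s) : ℝ × ℝ) + (x, y + s)) = (x, y) := by
    ext
    · simp only [Prod.smul_fst, Prod.fst_add, smul_eq_mul]; ring
    · simp only [Prod.smul_snd, Prod.snd_add, smul_eq_mul]; ring
  rw [h6] at h5
  obtain ⟨ε, hε, hball⟩ := Metric.mem_nhds_iff.1 (isOpen_interior.mem_nhds h5)
  refine ⟨ε / 2, by positivity, ?_, ?_⟩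
  · apply interior_subset
    apply hball
    rw [Metric.mem_ball, Prod.dist_eq, max_lt_iff]
    refine ⟨?_, ?_⟩
    · show dist (x + ε / 2) x < ε
      rw [Real.dist_eq, add_sub_cancel_left, abs_of_pos (by linarith)]
      linarith
    · show dist y y < ε
      rw [dist_self]; exact hε
  · apply interior_subset
    apply hball
    rw [Metric.mem_ball, Prod.dist_eq, max_lt_iff]
    refine ⟨?_, ?_⟩
    · show dist (x - ε / 2) x < ε
      rw [Real.dist_eq, sub_sub_cancel_left, abs_neg, abs_of_pos (by linarith)]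
      linarith
    · show dist y y < ε
      rw [dist_self]; exact hε

/-- Affine images of strictly convex bodies. -/
theorem sbody_image {K : Set (ℝ × ℝ)} (hK : SBody K) (L : (ℝ × ℝ) ≃ₗ[ℝ] (ℝ × ℝ)) (c : ℝ × ℝ) :
    SBody (affE L c '' K) := by
  refine ⟨body_image hK.body _, ?_⟩
  rintro _ ⟨p, hp, rfl⟩ _ ⟨q, hq, rfl⟩ hpq
  have h1 : p ≠ q := fun h => hpq (by rw [h])
  have h2 := hK.strict p hp q hq h1
  have h3 : (affE L c).toHomeomorphOfFiniteDimensional '' interior K =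
      interior ((affE L c).toHomeomorphOfFiniteDimensional '' K) :=
    (affE L c).toHomeomorphOfFiniteDimensional.image_interior K
  have h4 : affE L c '' interior K = interior (affE L c '' K) := h3
  rw [← h4]
  refine ⟨_, h2, ?_⟩
  rw [affE_apply, affE_apply, affE_apply]
  have h5 : (1 / 2 : ℝ) • (p + q) - c = (1 / 2 : ℝ) • ((p - c) + (q - c)) := by
    ext
    · simp only [Prod.fst_sub, Prod.smul_fst, Prod.fst_add, smul_eq_mul]; ring
    · simp only [Prod.snd_sub, Prod.smul_snd, Prod.snd_add, smul_eq_mul]; ring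
  rw [h5, map_smul, map_add]

/-- Two systems of slopes with imbalances of opposite signs can be balanced. -/
theorem exists_balance {d d' : ℝ} (h : d ≤ 0) (h' : 0 ≤ d') :
    ∃ t : ℝ, 0 ≤ t ∧ t ≤ 1 ∧ (1 - t) * d + t * d' = 0 := by
  by_cases h0 : d' - d = 0
  · have h1 : d = 0 := by linarith
    have h2 : d' = 0 := by linarith
    exact ⟨0, le_rfl, zero_le_one, by rw [h1, h2]; ring⟩
  · have h1 : 0 < d' - d := lt_of_le_of_ne (by linarith) (Ne.symm h0)
    refine ⟨-d / (d' - d), div_nonneg (by linarith) h1.le, ?_, ?_⟩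
    · rw [div_le_one h1]; linarith
    · field_simp
      ring

theorem dt_comb (w p r : ℝ × ℝ) (a b : ℝ) : dt w (a • p + b • r) = a * dt w p + b * dt w r := by
  simp only [dt, Prod.fst_add, Prod.snd_add, Prod.smul_fst, Prod.smul_snd, smul_eq_mul]
  ring

/-- A vector without normal component is a multiple of the direction. -/
theorem eq_smul_uu {θ : ℝ} {e : ℝ × ℝ} (h : dt (nn θ) e = 0) : e = dt (uu θ) e • uu θ := by
  simp only [dt, nn, uu] at h ⊢
  have h1 := Real.sin_sq_add_cos_sq θ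
  have h2 : Real.cos θ * e.2 = Real.sin θ * e.1 := by linarith
  ext
  · simp only [Prod.smul_fst, smul_eq_mul]
    have : (Real.cos θ * e.1 + Real.sin θ * e.2) * Real.cos θ =
        Real.cos θ ^ 2 * e.1 + Real.sin θ * (Real.cos θ * e.2) := by ring
    rw [this, h2]
    linear_combination (-e.1) * h1
  · simp only [Prod.smul_snd, smul_eq_mul]
    have : (Real.cos θ * e.1 + Real.sin θ * e.2) * Real.sin θ =
        Real.cos θ * (Real.sin θ * e.1) + Real.sin θ ^ 2 * e.2 := by ring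
    rw [this, ← h2]
    linear_combination (-e.2) * h1

theorem dt_smul_uu {θ : ℝ} {e w : ℝ × ℝ} (h : dt (nn θ) e = 0) :
    dt w e = dt (uu θ) e * dt w (uu θ) := by
  conv_lhs => rw [eq_smul_uu h]
  simp only [dt, Prod.smul_fst, Prod.smul_snd, smul_eq_mul]
  ring

theorem good_two {K : Set (ℝ × ℝ)} {θ : ℝ} {z : Fin 10 → ℝ × ℝ} (h : Good K θ z) :
    z 2 = z 1 + (z 3 - z 0) := by
  have h1 := eq_smul_uu h.lev1
  have h2 := eq_smul_uu h.lev2
  rw [h1, h.len, ← h2]
  abel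

/-- The four support lines of a good system in the coordinates of the frame. -/
theorem good_lines {K : Set (ℝ × ℝ)} {θ : ℝ} {z : Fin 10 → ℝ × ℝ} (h : Good K θ z)
    (hp : 0 < dt (uu θ) (z 3 - z 0) ∧ dt (z 6) (uu θ) < 0 ∧ dt (z 7) (uu θ) < 0 ∧
      0 < dt (z 8) (uu θ) ∧ 0 < dt (z 9) (uu θ)) {q : ℝ × ℝ} (hq : q ∈ K) {x y b : ℝ}
    (hxy : q = z 0 + x • (z 3 - z 0) + (y - b) • ((2 : ℝ) • (z 1 - z 0))) :
    x ≤ 1 + sr1 z * (y - b) ∧ x ≤ 1 - sr2 z * (y - (b + 1 / 2)) ∧ -x ≤ sl1 z * (y - b) ∧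
      -x ≤ -sl2 z * (y - (b + 1 / 2)) := by
  obtain ⟨hα, h6, h7, h8, h9⟩ := hp
  have h2 := good_two h
  have m6 : dt (z 6) (z 3 - z 0) < 0 := by
    rw [dt_smul_uu h.lev1]; exact mul_neg_of_pos_of_neg hα h6
  have m7 : dt (z 7) (z 3 - z 0) < 0 := by
    rw [dt_smul_uu h.lev1]; exact mul_neg_of_pos_of_neg hα h7
  have m8 : 0 < dt (z 8) (z 3 - z 0) := by
    rw [dt_smul_uu h.lev1]; exact mul_pos hα h8
  have m9 : 0 < dt (z 9) (z 3 - z 0) := by
    rw [dt_smul_uu h.lev1]; exact mul_pos hα h9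
  have q6 : q - z 0 = x • (z 3 - z 0) + (y - b) • ((2 : ℝ) • (z 1 - z 0)) := by
    rw [hxy]; abel
  have q7 : q - z 1 = x • (z 3 - z 0) + (y - (b + 1 / 2)) • ((2 : ℝ) • (z 1 - z 0)) := by
    rw [hxy]; module
  have q8 : q - z 2 = (x - 1) • (z 3 - z 0) + (y - (b + 1 / 2)) • ((2 : ℝ) • (z 1 - z 0)) := by
    rw [hxy, h2]; module
  have q9 : q - z 3 = (x - 1) • (z 3 - z 0) + (y - b) • ((2 : ℝ) • (z 1 - z 0)) := by
    rw [hxy]; module
  have s6 := h.s6 q hq
  have s7 := h.s7 q hq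
  have s8 := h.s8 q hq
  have s9 := h.s9 q hq
  rw [q6, dt_comb] at s6
  rw [q7, dt_comb] at s7
  rw [q8, dt_comb] at s8
  rw [q9, dt_comb] at s9
  refine ⟨?_, ?_, ?_, ?_⟩
  · have e : sr1 z * (y - b) = -((y - b) * dt (z 9) ((2 : ℝ) • (z 1 - z 0))) /
        dt (z 9) (z 3 - z 0) := by
      unfold sr1; ring
    rw [e, ← sub_le_iff_le_add', le_div_iff₀ m9]
    linarith
  · have e : sr2 z * (y - (b + 1 / 2)) =
        ((y - (b + 1 / 2)) * dt (z 8) ((2 : ℝ) • (z 1 - z 0))) / dt (z 8) (z 3 - z 0) := by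
      unfold sr2; ring
    have e2 : ((y - (b + 1 / 2)) * dt (z 8) ((2 : ℝ) • (z 1 - z 0))) / dt (z 8) (z 3 - z 0)
        ≤ 1 - x := by
      rw [div_le_iff₀ m8]
      linarith
    rw [e]
    linarith
  · have e : sl1 z * (y - b) = ((y - b) * dt (z 6) ((2 : ℝ) • (z 1 - z 0))) /
        dt (z 6) (z 3 - z 0) := by
      unfold sl1; ring
    rw [e, le_div_iff_of_neg m6]
    linarith
  · have e : -sl2 z * (y - (b + 1 / 2)) =
        ((y - (b + 1 / 2)) * dt (z 7) ((2 : ℝ) • (z 1 - z 0))) / dt (z 7) (z 3 - z 0) := by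
      unfold sl2; ring
    rw [e, le_div_iff_of_neg m7]
    linarith

/-- The frame of a critical direction. -/
theorem frame_of_good {K : Set (ℝ × ℝ)} (hK : SBody K) {θ : ℝ} {z z' : Fin 10 → ℝ × ℝ}
    (h : Good K θ z) (h' : Good K θ z')
    (he : z 0 = z' 0 ∧ z 1 = z' 1 ∧ z 2 = z' 2 ∧ z 3 = z' 3 ∧ z 4 = z' 4 ∧ z 5 = z' 5)
    (hp : 0 < dt (uu θ) (z 3 - z 0) ∧ dt (z 6) (uu θ) < 0 ∧ dt (z 7) (uu θ) < 0 ∧
      0 < dt (z 8) (uu θ) ∧ 0 < dt (z 9) (uu θ) ∧ 0 < dt (nn θ) (z 4 - z 5) ∧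
      0 < hb θ z ∧ hb θ z < 1 / 2)
    (hp' : 0 < dt (uu θ) (z' 3 - z' 0) ∧ dt (z' 6) (uu θ) < 0 ∧ dt (z' 7) (uu θ) < 0 ∧
      0 < dt (z' 8) (uu θ) ∧ 0 < dt (z' 9) (uu θ) ∧ 0 < dt (nn θ) (z' 4 - z' 5) ∧
      0 < hb θ z' ∧ hb θ z' < 1 / 2)
    (hd : Del θ z ≤ 0) (hd' : 0 ≤ Del θ z') :
    ∃ (L : (ℝ × ℝ) ≃ₗ[ℝ] (ℝ × ℝ)) (c : ℝ × ℝ) (b c1 c2 r1 r2 l1 l2 : ℝ),
      Frame (affE L c '' K) b c1 c2 r1 r2 l1 l2 := by
  obtain ⟨e0, e1, e2, e3, e4, e5⟩ := he
  obtain ⟨hα, h6, h7, h8, h9, hh, hb0, hb1⟩ := hp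
  obtain ⟨hα', h6', h7', h8', h9', hh', -, -⟩ := hp'
  set b : ℝ := hb θ z with hbdef
  have hbz' : hb θ z' = b := by
    rw [hbdef]; unfold hb; rw [e0, e4, e5]
  set u : ℝ × ℝ := z 3 - z 0 with hu
  set v : ℝ × ℝ := (2 : ℝ) • (z 1 - z 0) with hv
  set D : ℝ := cr u v with hDd
  have hD' : D = u.1 * v.2 - u.2 * v.1 := rfl
  -- the determinant is positive
  have hnv : dt (nn θ) v = dt (nn θ) (z 4 - z 5) := by
    rw [← h.half, hv]
    simp only [dt, Prod.smul_fst, Prod.smul_snd, smul_eq_mul]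
    ring
  have hcr : ∀ w : ℝ × ℝ, cr u w = dt (uu θ) u * dt (nn θ) w := by
    intro w
    have h1 := eq_smul_uu h.lev1
    rw [← hu] at h1
    have h2 : u.1 = dt (uu θ) u * Real.cos θ := by
      have := congrArg Prod.fst h1
      simpa only [Prod.smul_fst, smul_eq_mul, uu] using this
    have h3 : u.2 = dt (uu θ) u * Real.sin θ := by
      have := congrArg Prod.snd h1
      simpa only [Prod.smul_snd, smul_eq_mul, uu] using this
    have h4 : cr u w = u.1 * w.2 - u.2 * w.1 := rfl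
    have h5 : dt (nn θ) w = -Real.sin θ * w.1 + Real.cos θ * w.2 := rfl
    rw [h4, h5, h2, h3]
    ring
  have hDpos : 0 < D := by
    rw [hDd, hcr, hnv]
    exact mul_pos hα hh
  have hD : D ≠ 0 := hDpos.ne'
  set M : Matrix (Fin 2) (Fin 2) ℝ := !![v.2 / D, -v.1 / D; -u.2 / D, u.1 / D] with hM
  set L0 : (ℝ × ℝ) →ₗ[ℝ] (ℝ × ℝ) :=
    Matrix.toLin (Module.Basis.finTwoProd ℝ) (Module.Basis.finTwoProd ℝ) M with hL0
  have hL0a : ∀ x : ℝ × ℝ, L0 x = (cr x v / D, cr u x / D) := by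
    intro x
    rw [hL0, hM, Matrix.toLin_finTwoProd_apply]
    ext
    · show v.2 / D * x.1 + -v.1 / D * x.2 = (x.1 * v.2 - x.2 * v.1) / D
      ring
    · show -u.2 / D * x.1 + u.1 / D * x.2 = (u.1 * x.2 - u.2 * x.1) / D
      ring
  have hdet : LinearMap.det L0 = 1 / D := by
    rw [hL0, LinearMap.det_toLin, hM, Matrix.det_fin_two_of]
    field_simp
    rw [hD']
    ring
  have hdet0 : LinearMap.det L0 ≠ 0 := by
    rw [hdet]; exact div_ne_zero one_ne_zero hD
  set L : (ℝ × ℝ) ≃ₗ[ℝ] (ℝ × ℝ) := L0.equivOfDetNeZero hdet0 with hL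
  have hLa : ∀ x, L x = (cr x v / D, cr u x / D) := fun x => hL0a x
  set c : ℝ × ℝ := z 0 - b • v with hc
  have hA : ∀ q : ℝ × ℝ, affE L c q = (cr (q - z 0) v / D, b + cr u (q - z 0) / D) := by
    intro q
    rw [affE_apply, hLa]
    ext
    · simp only [cr, hc, Prod.fst_sub, Prod.snd_sub, Prod.smul_fst, Prod.smul_snd, smul_eq_mul]
      ring
    · simp only [cr, hc, Prod.fst_sub, Prod.snd_sub, Prod.smul_fst, Prod.smul_snd, smul_eq_mul]
      field_simp
      rw [hD']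
      ring
  -- the points of the frame
  have hpt : ∀ s t : ℝ, affE L c (z 0 + s • u + t • v) = (s, b + t) := by
    intro s t
    rw [hA]
    ext
    · simp only [cr, Prod.fst_sub, Prod.snd_sub, Prod.fst_add, Prod.snd_add, Prod.smul_fst,
        Prod.smul_snd, smul_eq_mul]
      rw [div_eq_iff hD, hD']
      ring
    · simp only [cr, Prod.fst_sub, Prod.snd_sub, Prod.fst_add, Prod.snd_add, Prod.smul_fst,
        Prod.smul_snd, smul_eq_mul]
      rw [add_right_inj, div_eq_iff hD, hD']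
      ring
  have hrep : ∀ q : ℝ × ℝ, q = z 0 + (affE L c q).1 • u + ((affE L c q).2 - b) • v := by
    intro q
    rw [hA]
    have hx : (z 0 + (cr (q - z 0) v / D, b + cr u (q - z 0) / D).1 • u +
        ((cr (q - z 0) v / D, b + cr u (q - z 0) / D).2 - b) • v : ℝ × ℝ) =
        z 0 + (cr (q - z 0) v / D) • u + (cr u (q - z 0) / D) • v := by
      simp only [add_sub_cancel_left]
    rw [hx]
    ext
    · simp only [cr, Prod.fst_sub, Prod.snd_sub, Prod.fst_add, Prod.smul_fst, smul_eq_mul]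
      field_simp
      rw [hD']
      ring
    · simp only [cr, Prod.fst_sub, Prod.snd_sub, Prod.snd_add, Prod.smul_snd, smul_eq_mul]
      field_simp
      rw [hD']
      ring
  have hY : ∀ q : ℝ × ℝ, (affE L c q).2 = dt (nn θ) (q - z 5) / dt (nn θ) (z 4 - z 5) := by
    intro q
    rw [hA]
    show b + cr u (q - z 0) / D = _
    have h1 : D = dt (uu θ) u * dt (nn θ) (z 4 - z 5) := by rw [hDd, hcr, hnv]
    have h2 : b = dt (nn θ) (z 0 - z 5) / dt (nn θ) (z 4 - z 5) := rfl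
    rw [hcr, h1, mul_div_mul_left _ _ hα.ne', h2, ← add_div]
    congr 1
    simp only [dt, Prod.fst_sub, Prod.snd_sub]
    ring
  have hmem : ∀ q ∈ K, affE L c q ∈ affE L c '' K := fun q hq => ⟨q, hq, rfl⟩
  have hm0 : ((0 : ℝ), b) ∈ affE L c '' K := by
    have h1 := hmem _ h.m0
    have h2 := hpt 0 0
    rw [zero_smul, zero_smul, add_zero, add_zero, add_zero] at h2
    rwa [h2] at h1
  have hm1 : ((0 : ℝ), b + 1 / 2) ∈ affE L c '' K := by
    have h1 := hmem _ h.m1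
    have h2 := hpt 0 (1 / 2)
    have h3 : z 0 + (0 : ℝ) • u + (1 / 2 : ℝ) • v = z 1 := by rw [hv]; module
    rw [h3] at h2
    rwa [h2] at h1
  have hm2 : ((1 : ℝ), b + 1 / 2) ∈ affE L c '' K := by
    have h1 := hmem _ h.m2
    have h2 := hpt 1 (1 / 2)
    have h3 : z 0 + (1 : ℝ) • u + (1 / 2 : ℝ) • v = z 2 := by rw [hv, good_two h]; module
    rw [h3] at h2
    rwa [h2] at h1
  have hm3 : ((1 : ℝ), b) ∈ affE L c '' K := by
    have h1 := hmem _ h.m3
    have h2 := hpt 1 0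
    have h3 : z 0 + (1 : ℝ) • u + (0 : ℝ) • v = z 3 := by rw [hu]; module
    rw [h3, add_zero] at h2
    rwa [h2] at h1
  have hm4 : ((affE L c (z 4)).1, (1 : ℝ)) ∈ affE L c '' K := by
    have h1 := hmem _ h.m4
    have h2 : (affE L c (z 4)).2 = 1 := by rw [hY]; exact div_self hh.ne'
    have h3 : ((affE L c (z 4)).1, (1 : ℝ)) = affE L c (z 4) := Prod.ext rfl h2.symm
    rwa [h3]
  have hm5 : ((affE L c (z 5)).1, (0 : ℝ)) ∈ affE L c '' K := by
    have h1 := hmem _ h.m5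
    have h2 : (affE L c (z 5)).2 = 0 := by
      rw [hY, sub_self]
      simp [dt]
    have h3 : ((affE L c (z 5)).1, (0 : ℝ)) = affE L c (z 5) := Prod.ext rfl h2.symm
    rwa [h3]
  -- the balanced slopes
  obtain ⟨t, ht0, ht1, hbal⟩ := exists_balance hd hd'
  have hDz : Del θ z = (sr1 z + sl1 z) * b - (sr2 z + sl2 z) * (1 / 2 - b) := rfl
  have hDz' : Del θ z' = (sr1 z' + sl1 z') * b - (sr2 z' + sl2 z') * (1 / 2 - b) := by
    unfold Del; rw [hbz']
  rw [hDz, hDz'] at hbal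
  set r1 : ℝ := (1 - t) * sr1 z + t * sr1 z' with hr1
  set r2 : ℝ := (1 - t) * sr2 z + t * sr2 z' with hr2
  set l1 : ℝ := (1 - t) * sl1 z + t * sl1 z' with hl1
  set l2 : ℝ := (1 - t) * sl2 z + t * sl2 z' with hl2
  have hlines : ∀ p ∈ affE L c '' K, p.1 ≤ 1 + r1 * (p.2 - b) ∧
      p.1 ≤ 1 - r2 * (p.2 - (b + 1 / 2)) ∧ -p.1 ≤ l1 * (p.2 - b) ∧
      -p.1 ≤ -l2 * (p.2 - (b + 1 / 2)) := by
    rintro _ ⟨q, hq, rfl⟩
    have h1 := good_lines h ⟨hα, h6, h7, h8, h9⟩ hq (hrep q)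
    have h2 := good_lines h' ⟨hα', h6', h7', h8', h9'⟩ hq (x := (affE L c q).1)
      (y := (affE L c q).2) (b := b) (by
        rw [← e0, ← e1, ← e3]
        exact hrep q)
    have hs : 0 ≤ 1 - t := by linarith
    obtain ⟨a1, a2, a3, a4⟩ := h1
    obtain ⟨b1, b2, b3, b4⟩ := h2
    refine ⟨?_, ?_, ?_, ?_⟩
    · have g1 := mul_le_mul_of_nonneg_left a1 hs
      have g2 := mul_le_mul_of_nonneg_left b1 ht0
      rw [hr1]
      linarith
    · have g1 := mul_le_mul_of_nonneg_left a2 hs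
      have g2 := mul_le_mul_of_nonneg_left b2 ht0
      rw [hr2]
      linarith
    · have g1 := mul_le_mul_of_nonneg_left a3 hs
      have g2 := mul_le_mul_of_nonneg_left b3 ht0
      rw [hl1]
      linarith
    · have g1 := mul_le_mul_of_nonneg_left a4 hs
      have g2 := mul_le_mul_of_nonneg_left b4 ht0
      rw [hl2]
      linarith
  have hS := sbody_image hK L c
  -- signs of the slopes
  have hl2' : 0 ≤ l2 := by
    have h1 := (hlines _ hm0).2.2.2
    simp only at h1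
    nlinarith
  have hl1' : 0 ≤ l1 := by
    have h1 := (hlines _ hm1).2.2.1
    simp only at h1
    nlinarith
  have hr2' : 0 ≤ r2 := by
    have h1 := (hlines _ hm3).2.1
    simp only at h1
    nlinarith
  have hr1' : 0 ≤ r1 := by
    have h1 := (hlines _ hm2).1
    simp only at h1
    nlinarith
  refine ⟨L, c, b, (affE L c (z 4)).1, (affE L c (z 5)).1, r1, r2, l1, l2, ?_⟩
  refine ⟨hS.body, hb0, hb1, ?_, ?_, ?_, ?_, ?_, ?_, hm0, hm1, hm2, hm3, hm4, hm5,
    fun p hp => (hlines p hp).1, fun p hp => (hlines p hp).2.1,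
    fun p hp => (hlines p hp).2.2.1, fun p hp => (hlines p hp).2.2.2, ?_⟩
  · -- 0 < c1
    have h1 := (hlines _ hm4).2.2.2
    simp only at h1
    have h2 : 0 ≤ (affE L c (z 4)).1 := by nlinarith [mul_nonneg hl2' (by linarith : (0 : ℝ) ≤ 1 / 2 - b)]
    rcases h2.lt_or_eq with h3 | h3
    · exact h3
    · exfalso
      rw [← h3] at hm4
      obtain ⟨ε, hε, -, h4⟩ := sbody_between hS hm0 hm4 (y := b + 1 / 2) (by linarith) (by linarith)
      have h5 := (hlines _ h4).2.2.2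
      simp only at h5
      nlinarith
  · -- c1 < 1
    have h1 := (hlines _ hm4).2.1
    simp only at h1
    have h2 : (affE L c (z 4)).1 ≤ 1 := by nlinarith [mul_nonneg hr2' (by linarith : (0 : ℝ) ≤ 1 / 2 - b)]
    rcases h2.lt_or_eq with h3 | h3
    · exact h3
    · exfalso
      rw [h3] at hm4
      obtain ⟨ε, hε, h4, -⟩ := sbody_between hS hm3 hm4 (y := b + 1 / 2) (by linarith) (by linarith)
      have h5 := (hlines _ h4).2.1
      simp only at h5
      nlinarith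
  · -- 0 < c2
    have h1 := (hlines _ hm5).2.2.1
    simp only at h1
    have h2 : 0 ≤ (affE L c (z 5)).1 := by nlinarith [mul_nonneg hl1' hb0.le]
    rcases h2.lt_or_eq with h3 | h3
    · exact h3
    · exfalso
      rw [← h3] at hm5
      obtain ⟨ε, hε, -, h4⟩ := sbody_between hS hm5 hm1 (y := b) hb0 (by linarith)
      have h5 := (hlines _ h4).2.2.1
      simp only at h5
      nlinarith
  · -- c2 < 1
    have h1 := (hlines _ hm5).1
    simp only at h1
    have h2 : (affE L c (z 5)).1 ≤ 1 := by nlinarith [mul_nonneg hr1' hb0.le]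
    rcases h2.lt_or_eq with h3 | h3
    · exact h3
    · exfalso
      rw [h3] at hm5
      obtain ⟨ε, hε, h4, -⟩ := sbody_between hS hm5 hm2 (y := b) hb0 (by linarith)
      have h5 := (hlines _ h4).1
      simp only at h5
      nlinarith
  · rintro _ ⟨q, hq, rfl⟩
    rw [hY, div_le_one hh]
    have h1 := h.top q hq
    simp only [dt, Prod.fst_sub, Prod.snd_sub] at h1 ⊢
    linarith
  · rintro _ ⟨q, hq, rfl⟩
    rw [hY]
    refine div_nonneg ?_ hh.le
    have h1 := h.bot q hq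
    simp only [dt, Prod.fst_sub, Prod.snd_sub] at h1 ⊢
    linarith
  · rw [hr1, hr2, hl1, hl2]
    linarith

end Pool.Agent.Helper55.PHU
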